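import Pool.Agent.Lib.MP_80aaf5_lc.Alg4.KW

/-!
# Configurations that are good for all small sets of queries
-/

namespace ESY.Alg4

open Finset

theorem prod_le_aux {ι : Type} (s : Finset ι) (x : ι → ℝ) (h0 : ∀ i ∈ s, 0 ≤ x i) :
    (∏ i ∈ s, (1 + x i)) * (1 - ∑ i ∈ s, x i) ≤ 1 := by
  classical
  induction s using Finset.induction_on with
  | empty => simp
  | insert a s ha ih =>
    have h1 := ih fun i hi => h0 i (mem_insert_of_mem hi)
    have h2 : 0 ≤ x a := h0 a (mem_insert_self a s)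
    have h3 : 0 ≤ ∑ i ∈ s, x i := sum_nonneg fun i hi => h0 i (mem_insert_of_mem hi)
    have h4 : 0 ≤ ∏ i ∈ s, (1 + x i) := prod_nonneg fun i hi => by
      have := h0 i (mem_insert_of_mem hi)
      linarith
    rw [prod_insert ha, sum_insert ha]
    calc (1 + x a) * (∏ i ∈ s, (1 + x i)) * (1 - (x a + ∑ i ∈ s, x i)) =
          (∏ i ∈ s, (1 + x i)) * ((1 + x a) * (1 - (x a + ∑ i ∈ s, x i))) := by ring
      _ ≤ (∏ i ∈ s, (1 + x i)) * (1 - ∑ i ∈ s, x i) := by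
          refine mul_le_mul_of_nonneg_left ?_ h4
          nlinarith [mul_nonneg h2 h3, mul_nonneg h2 h2]
      _ ≤ 1 := h1

theorem prod_le_of {ι : Type} (s : Finset ι) (x : ι → ℝ) (h0 : ∀ i ∈ s, 0 ≤ x i) {b : ℝ}
    (hs : ∑ i ∈ s, x i ≤ b) (hb : b < 1) : ∏ i ∈ s, (1 + x i) ≤ 1 / (1 - b) := by
  have h1 := prod_le_aux s x h0
  have h4 : 0 ≤ ∏ i ∈ s, (1 + x i) := prod_nonneg fun i hi => by
    have := h0 i hi
    linarith
  rw [le_div_iff₀ (by linarith)]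
  refine le_trans (mul_le_mul_of_nonneg_left ?_ h4) h1
  linarith

section

variable {ι Y : Type} [DecidableEq Y] (Pq : Finset ι) (wt : ι → ℕ)

/-- the sets of queries of weight at most `w` -/
noncomputable def Qs (w : ℕ) : Finset (Finset ι) := by
  classical
  exact Pq.powerset.filter fun Q => ∑ p ∈ Q, wt p ≤ w

theorem mem_Qs {w : ℕ} {Q : Finset ι} : Q ∈ Qs Pq wt w ↔ Q ⊆ Pq ∧ ∑ p ∈ Q, wt p ≤ w := by
  classical
  rw [Qs, mem_filter, mem_powerset]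

theorem sum_powerset_eq : ∑ Q ∈ Pq.powerset, (1 / 16 : ℝ) ^ (∑ p ∈ Q, wt p) =
    ∏ p ∈ Pq, (1 + (1 / 16 : ℝ) ^ wt p) := by
  classical
  rw [prod_one_add]
  exact sum_congr rfl fun Q _ => (prod_pow_eq_pow_sum _ _ _).symm

variable {Pq wt}

theorem sum_powerset_le (h : ∑ p ∈ Pq, (1 / 16 : ℝ) ^ wt p ≤ 1 / 7) :
    ∑ Q ∈ Pq.powerset, (1 / 16 : ℝ) ^ (∑ p ∈ Q, wt p) ≤ 7 / 6 := by
  rw [sum_powerset_eq]
  refine (prod_le_of Pq _ (fun i _ => by positivity) h (by norm_num)).trans ?_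
  norm_num

theorem card_Qs_le (h : ∑ p ∈ Pq, (1 / 16 : ℝ) ^ wt p ≤ 1 / 7) (w : ℕ) :
    (Qs Pq wt w).card ≤ 2 * 16 ^ w := by
  have h1 : ((Qs Pq wt w).card : ℝ) * (1 / 16) ^ w ≤ 7 / 6 := by
    refine le_trans ?_ (sum_powerset_le h)
    rw [← nsmul_eq_mul, ← sum_const]
    refine (sum_le_sum (g := fun Q => (1 / 16 : ℝ) ^ (∑ p ∈ Q, wt p)) fun Q hQ => ?_).trans
      (sum_le_sum_of_subset_of_nonneg (fun Q hQ => ?_) fun _ _ _ => by positivity)
    · exact pow_le_pow_of_le_one (by norm_num) (by norm_num) ((mem_Qs Pq wt).1 hQ).2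
    · exact mem_powerset.2 ((mem_Qs Pq wt).1 hQ).1
  have h2 : ((Qs Pq wt w).card : ℝ) ≤ 2 * 16 ^ w := by
    have h3 : (0 : ℝ) < 16 ^ w := by positivity
    have h4 : (1 / 16 : ℝ) ^ w * 16 ^ w = 1 := by rw [← mul_pow]; norm_num
    calc ((Qs Pq wt w).card : ℝ) = (Qs Pq wt w).card * (1 / 16) ^ w * 16 ^ w := by
          rw [mul_assoc, h4, mul_one]
      _ ≤ 7 / 6 * 16 ^ w := mul_le_mul_of_nonneg_right h1 h3.le
      _ ≤ 2 * 16 ^ w := by nlinarith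
  exact_mod_cast h2

variable {Γ : ι → Type} [∀ p, AddCommGroup (Γ p)]

/-- all values at once -/
def pk (Q : Finset ι) (α : ∀ p, Y → Γ p) : Y → ∀ p : {x // x ∈ Q}, Γ p.1 := fun y p => α p.1 y

omit [DecidableEq Y] in
theorem kp_pi (Q : Finset ι) (α β : ∀ p, Y → Γ p) (c : Finset Y × Finset Y) :
    kp (pk Q α) (pk Q β) c = fun p : {x // x ∈ Q} => kp (α p.1) (β p.1) c := by
  funext p
  rw [kp, kp, Pi.add_apply, Finset.sum_apply, Finset.sum_apply]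
  rfl

omit [DecidableEq Y] in
theorem kp_pi_eq (Q : Finset ι) (α β : ∀ p, Y → Γ p) (c f : Finset Y × Finset Y) :
    kp (pk Q α) (pk Q β) f = kp (pk Q α) (pk Q β) c ↔
      ∀ p ∈ Q, kp (α p) (β p) f = kp (α p) (β p) c := by
  rw [kp_pi, kp_pi, funext_iff]
  exact ⟨fun h p hp => h ⟨p, hp⟩, fun h p => h p.1 p.2⟩

variable [∀ p, Fintype (Γ p)]

omit [∀ p, AddCommGroup (Γ p)] in
theorem card_pi_le {Q : Finset ι} (hQ : ∀ p ∈ Q, Fintype.card (Γ p) ≤ 2 ^ wt p)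
    [Fintype (∀ p : {x // x ∈ Q}, Γ p.1)] :
    Fintype.card (∀ p : {x // x ∈ Q}, Γ p.1) ≤ 2 ^ (∑ p ∈ Q, wt p) := by
  classical
  rw [← Nat.card_eq_fintype_card, Nat.card_pi, ← prod_pow_eq_pow_sum,
    ← prod_coe_sort Q fun p => 2 ^ wt p]
  refine prod_le_prod' fun p _ => ?_
  rw [Nat.card_eq_fintype_card]
  exact hQ p.1 p.2

theorem pow_aux {t K : ℕ} (ht : 0 < t) (hK : 2 * t ≤ K) : 2 ^ t * 2 ^ K < 3 ^ K := by
  obtain ⟨d, rfl⟩ := Nat.exists_eq_add_of_le hK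
  have h1 : 8 ^ t < 9 ^ t := Nat.pow_lt_pow_left (by norm_num) (by omega)
  have h2 : 2 ^ d ≤ 3 ^ d := Nat.pow_le_pow_left (by norm_num) _
  have h3 : 0 < 3 ^ d := by positivity
  calc 2 ^ t * 2 ^ (2 * t + d) = 8 ^ t * 2 ^ d := by
        rw [pow_add, pow_mul, ← mul_assoc, ← mul_pow]
        norm_num
    _ ≤ 8 ^ t * 3 ^ d := Nat.mul_le_mul_left _ h2
    _ < 9 ^ t * 3 ^ d := Nat.mul_lt_mul_of_pos_right h1 h3
    _ = 3 ^ (2 * t + d) := by
        rw [pow_add, pow_mul]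
        norm_num

/-- **A disjoint pair that is ambiguous for all small sets of queries.** -/
theorem exists_c0 (h : ∑ p ∈ Pq, (1 / 16 : ℝ) ^ wt p ≤ 1 / 7)
    (hΓ : ∀ p ∈ Pq, Fintype.card (Γ p) ≤ 2 ^ wt p) (S : Finset Y) (α β : ∀ p, Y → Γ p) {w : ℕ}
    (hK : 12 * w + 4 ≤ S.card) : ∃ c ∈ O0 S, ∀ Q ⊆ Pq, ∑ p ∈ Q, wt p ≤ w →
      ∃ f ∈ O1 S, ∀ p ∈ Q, kp (α p) (β p) f = kp (α p) (β p) c := by
  classical
  by_contra hcon
  push Not at hcon
  have h1 : O0 S ⊆ (Qs Pq wt w).biUnion fun Q => B0 S (pk Q α) (pk Q β) := by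
    intro c hc
    obtain ⟨Q, hQ1, hQ2, hQ3⟩ := hcon c hc
    rw [mem_biUnion]
    refine ⟨Q, (mem_Qs Pq wt).2 ⟨hQ1, hQ2⟩, mem_filter.2 ⟨hc, fun f hf => ?_⟩⟩
    rw [Ne, kp_pi_eq]
    obtain ⟨p, hp, hne⟩ := hQ3 f hf
    exact fun h => hne (h p hp)
  have h2 : ∀ Q ∈ Qs Pq wt w, (B0 S (pk Q α) (pk Q β)).card ≤ (2 ^ w) ^ 2 * 2 ^ S.card := by
    intro Q hQ
    obtain ⟨hQ1, hQ2⟩ := (mem_Qs Pq wt).1 hQ
    refine (card_B0 _ _ _).trans (Nat.mul_le_mul_right _ (Nat.pow_le_pow_left ?_ _))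
    exact (card_pi_le fun p hp => hΓ p (hQ1 hp)).trans (Nat.pow_le_pow_right (by norm_num) hQ2)
  have h3 := (card_le_card h1).trans (card_biUnion_le.trans (sum_le_sum h2))
  rw [card_O0, sum_const, smul_eq_mul] at h3
  have h4 := h3.trans (Nat.mul_le_mul_right _ (card_Qs_le h w))
  have h5 : 2 * 16 ^ w * ((2 ^ w) ^ 2 * 2 ^ S.card) = 2 ^ (6 * w + 1) * 2 ^ S.card := by
    have h6 : (16 : ℕ) ^ w = 2 ^ (4 * w) := by rw [pow_mul]; norm_num
    rw [h6]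
    ring
  rw [h5] at h4
  exact absurd (pow_aux (t := 6 * w + 1) (K := S.card) (by omega) (by omega)) (not_lt.2 h4)

/-- **Pairs that meet in one point such that most of them are ambiguous.** -/
theorem exists_c1 {V : Type} [Fintype V] (h : ∑ p ∈ Pq, (1 / 16 : ℝ) ^ wt p ≤ 1 / 7)
    (hΓ : ∀ p ∈ Pq, Fintype.card (Γ p) ≤ 2 ^ wt p) (S : Finset Y) (α β : ∀ p, V → Y → Γ p)
    {M N w : ℕ} (hN : S.card ≤ 2 ^ N) (hS : 0 < S.card)
    (hK : 12 * (Fintype.card V * 16 ^ M * (2 * (w + N) + 1)) ≤ S.card) :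
    ∃ c : V → Finset Y × Finset Y, (∀ v, c v ∈ O1 S) ∧ ∀ Q ⊆ Pq, ∑ p ∈ Q, wt p ≤ w →
      ∀ D : Finset V, (∀ v ∈ D, ¬ ∃ f ∈ O0 S, ∀ p ∈ Q, kp (α p v) (β p v) f =
        kp (α p v) (β p v) (c v)) → M * D.card ≤ ∑ p ∈ Q, wt p := by
  classical
  set R : ℕ := 2 * (w + N) + 1 with hR
  set Bd : Finset ι → V → Finset (Finset Y × Finset Y) := fun Q v => B1 S
    (pk Q fun p => α p v) (pk Q fun p => β p v) with hBd
  have hBd1 : ∀ Q ∈ Qs Pq wt w, ∀ v, ((Bd Q v).card : ℝ) ≤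
      3 * R / S.card * (O1 S).card := by
    intro Q hQ v
    obtain ⟨hQ1, hQ2⟩ := (mem_Qs Pq wt).1 hQ
    have h1 : (Bd Q v).card ≤ R * 3 ^ S.card := card_B1 S _ _
      ((card_pi_le fun p hp => hΓ p (hQ1 hp)).trans (Nat.pow_le_pow_right (by norm_num) hQ2)) hN
    have h2 := card_O1 S
    have h3 : ((Bd Q v).card : ℝ) ≤ R * 3 ^ S.card := by exact_mod_cast h1
    have h4 : (3 : ℝ) * (O1 S).card = S.card * 3 ^ S.card := by exact_mod_cast h2
    have h5 : (0 : ℝ) < S.card := by exact_mod_cast hS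
    refine h3.trans (le_of_eq ?_)
    field_simp
    linear_combination (-(R : ℝ)) * h4
  have hO1 : (0 : ℝ) < (O1 S).card := by
    have h2 := card_O1 S
    have h3 : 0 < 3 ^ S.card := by positivity
    have h4 : 0 < 3 * (O1 S).card := by
      rw [h2]
      exact Nat.mul_pos hS h3
    have h5 : 0 < (O1 S).card := by omega
    exact_mod_cast h5
  set lam : ℝ := 16 ^ M with hlam
  have hlam0 : 1 ≤ lam := one_le_pow₀ (by norm_num)
  set g : Finset ι → V → Finset Y × Finset Y → ℝ := fun Q v c =>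
    if c ∈ Bd Q v then lam else 1 with hg
  have hg0 : ∀ Q v c, 0 ≤ g Q v c := by
    intro Q v c
    simp only [hg]
    split_ifs <;> linarith
  have hsum : ∀ Q ∈ Qs Pq wt w, ∀ v, ∑ c ∈ O1 S, g Q v c ≤
      (O1 S).card * (1 + lam * (3 * R / S.card)) := by
    intro Q hQ v
    have h1 : ∀ c ∈ O1 S, g Q v c ≤ 1 + if c ∈ Bd Q v then lam else 0 := by
      intro c _
      simp only [hg]
      split_ifs <;> linarith
    refine (sum_le_sum h1).trans ?_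
    rw [sum_add_distrib, sum_const, nsmul_eq_mul, mul_one, ← sum_filter, sum_const, nsmul_eq_mul]
    have h2 : (((O1 S).filter fun c => c ∈ Bd Q v).card : ℝ) ≤ (Bd Q v).card := by
      exact_mod_cast card_le_card fun c hc => (mem_filter.1 hc).2
    have h3 := hBd1 Q hQ v
    have h4 : (((O1 S).filter fun c => c ∈ Bd Q v).card : ℝ) * lam ≤
        3 * R / S.card * (O1 S).card * lam :=
      mul_le_mul_of_nonneg_right (h2.trans h3) (by linarith)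
    calc ((O1 S).card : ℝ) + ((O1 S).filter fun c => c ∈ Bd Q v).card * lam ≤
          (O1 S).card + 3 * R / S.card * (O1 S).card * lam := by linarith
      _ = (O1 S).card * (1 + lam * (3 * R / S.card)) := by ring
  set Ω : Finset (V → Finset Y × Finset Y) := Fintype.piFinset fun _ => O1 S with hΩ
  have hΩc : (Ω.card : ℝ) = (O1 S).card ^ Fintype.card V := by
    rw [hΩ, Fintype.card_piFinset, prod_const, card_univ]
    push_cast
    rfl
  have hpr : ∀ Q ∈ Qs Pq wt w, ∑ a ∈ Ω, ∏ v, g Q v (a v) ≤ 4 / 3 * Ω.card := by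
    intro Q hQ
    rw [hΩ, ← prod_univ_sum]
    refine (prod_le_prod (fun v _ => sum_nonneg fun c _ => hg0 Q v c)
      fun v _ => hsum Q hQ v).trans ?_
    rw [prod_mul_distrib, prod_const, card_univ, ← hΩc, mul_comm, ← hΩ]
    refine mul_le_mul_of_nonneg_right ?_ (Nat.cast_nonneg _)
    refine (prod_le_of (univ : Finset V) (fun _ => lam * (3 * R / S.card))
      (fun _ _ => by positivity) (b := 1 / 4) ?_ (by norm_num)).trans (by norm_num)
    rw [sum_const, card_univ, nsmul_eq_mul]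
    have h5 : (0 : ℝ) < S.card := by exact_mod_cast hS
    have h6 : (12 : ℝ) * (Fintype.card V * 16 ^ M * R) ≤ S.card := by exact_mod_cast hK
    rw [hlam, ← mul_assoc, mul_div_assoc', div_le_iff₀ h5]
    nlinarith
  set F : (V → Finset Y × Finset Y) → ℝ := fun a => ∑ Q ∈ (Qs Pq wt w).erase ∅,
    (1 / 16 : ℝ) ^ (∑ p ∈ Q, wt p) * ∏ v, g Q v (a v) with hF
  have hFsum : ∑ a ∈ Ω, F a < ∑ _a ∈ Ω, (1 : ℝ) := by
    have h1 : ∑ a ∈ Ω, F a = ∑ Q ∈ (Qs Pq wt w).erase ∅,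
        (1 / 16 : ℝ) ^ (∑ p ∈ Q, wt p) * ∑ a ∈ Ω, ∏ v, g Q v (a v) := by
      simp only [hF]
      rw [sum_comm]
      exact sum_congr rfl fun Q _ => (mul_sum _ _ _).symm
    have h2 : ∑ Q ∈ (Qs Pq wt w).erase ∅, (1 / 16 : ℝ) ^ (∑ p ∈ Q, wt p) ≤ 1 / 6 := by
      have h3 := sum_powerset_le h
      rw [← add_sum_erase Pq.powerset _ (empty_mem_powerset Pq), sum_empty, pow_zero] at h3
      have h4 : ∑ Q ∈ (Qs Pq wt w).erase ∅, (1 / 16 : ℝ) ^ (∑ p ∈ Q, wt p) ≤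
          ∑ Q ∈ Pq.powerset.erase ∅, (1 / 16 : ℝ) ^ (∑ p ∈ Q, wt p) := by
        refine sum_le_sum_of_subset_of_nonneg (erase_subset_erase _ fun Q hQ => ?_)
          fun _ _ _ => by positivity
        exact mem_powerset.2 ((mem_Qs Pq wt).1 hQ).1
      linarith
    have hΩ0 : (0 : ℝ) < Ω.card := by
      rw [hΩc]
      positivity
    rw [h1, sum_const, nsmul_eq_mul, mul_one]
    calc ∑ Q ∈ (Qs Pq wt w).erase ∅, (1 / 16 : ℝ) ^ (∑ p ∈ Q, wt p) * ∑ a ∈ Ω, ∏ v, g Q v (a v) ≤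
          ∑ Q ∈ (Qs Pq wt w).erase ∅, (1 / 16 : ℝ) ^ (∑ p ∈ Q, wt p) * (4 / 3 * Ω.card) :=
          sum_le_sum fun Q hQ => mul_le_mul_of_nonneg_left (hpr Q (mem_of_mem_erase hQ))
            (by positivity)
      _ = (∑ Q ∈ (Qs Pq wt w).erase ∅, (1 / 16 : ℝ) ^ (∑ p ∈ Q, wt p)) * (4 / 3 * Ω.card) :=
          (sum_mul _ _ _).symm
      _ ≤ 1 / 6 * (4 / 3 * Ω.card) := mul_le_mul_of_nonneg_right h2 (by positivity)
      _ < Ω.card := by linarith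
  obtain ⟨a, ha, hFa⟩ := exists_lt_of_sum_lt hFsum
  refine ⟨a, fun v => Fintype.mem_piFinset.1 ha v, fun Q hQ hW D hD => ?_⟩
  rcases eq_or_ne Q ∅ with rfl | hne
  · have h1 : D = ∅ := by
      refine eq_empty_of_forall_notMem fun v hv => hD v hv ⟨(∅, ∅), ?_, fun p hp => ?_⟩
      · exact mem_O0.2 ⟨⟨empty_subset _, empty_subset _⟩, disjoint_empty_left _⟩
      · exact absurd hp (notMem_empty p)
    rw [h1, card_empty, Nat.mul_zero]
    exact Nat.zero_le _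
  · have hQs : Q ∈ Qs Pq wt w := (mem_Qs Pq wt).2 ⟨hQ, hW⟩
    have h1 : (1 / 16 : ℝ) ^ (∑ p ∈ Q, wt p) * ∏ v, g Q v (a v) ≤ F a :=
      single_le_sum (f := fun Q => (1 / 16 : ℝ) ^ (∑ p ∈ Q, wt p) * ∏ v, g Q v (a v))
        (fun Q _ => mul_nonneg (by positivity) (prod_nonneg fun v _ => hg0 Q v _))
        (mem_erase.2 ⟨hne, hQs⟩)
    have h2 : lam ^ D.card ≤ ∏ v, g Q v (a v) := by
      have h3 : ∏ v ∈ D, g Q v (a v) = lam ^ D.card := by
        rw [← prod_const]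
        refine prod_congr rfl fun v hv => ?_
        simp only [hg]
        rw [if_pos]
        refine mem_filter.2 ⟨Fintype.mem_piFinset.1 ha v, fun f hf heq => hD v hv ⟨f, hf, ?_⟩⟩
        exact (kp_pi_eq Q (fun p => α p v) (fun p => β p v) (a v) f).1 heq
      rw [← h3, ← prod_sdiff (subset_univ D)]
      refine le_mul_of_one_le_left (prod_nonneg fun v _ => hg0 Q v _) ?_
      refine le_trans (le_of_eq prod_const_one.symm) (prod_le_prod (fun _ _ => zero_le_one)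
        fun v _ => ?_)
      simp only [hg]
      split_ifs <;> linarith
    have h3 : (1 / 16 : ℝ) ^ (∑ p ∈ Q, wt p) * lam ^ D.card < 1 :=
      lt_of_le_of_lt ((mul_le_mul_of_nonneg_left h2 (by positivity)).trans h1) hFa
    have h4 : (16 : ℝ) ^ (M * D.card) < 16 ^ (∑ p ∈ Q, wt p) := by
      rw [hlam, ← pow_mul] at h3
      have h5 : (0 : ℝ) < 16 ^ (∑ p ∈ Q, wt p) := by positivity
      have h6 : (1 / 16 : ℝ) ^ (∑ p ∈ Q, wt p) * 16 ^ (∑ p ∈ Q, wt p) = 1 := by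
        rw [← mul_pow]
        norm_num
      have h7 := mul_lt_mul_of_pos_right h3 h5
      rw [one_mul] at h7
      calc (16 : ℝ) ^ (M * D.card) = (1 / 16) ^ (∑ p ∈ Q, wt p) * 16 ^ (∑ p ∈ Q, wt p) *
            16 ^ (M * D.card) := by rw [h6, one_mul]
        _ = (1 / 16) ^ (∑ p ∈ Q, wt p) * 16 ^ (M * D.card) * 16 ^ (∑ p ∈ Q, wt p) := by ring
        _ < 16 ^ (∑ p ∈ Q, wt p) := h7
    exact ((pow_lt_pow_iff_right₀ (by norm_num : (1 : ℝ) < 16)).1 h4).le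

end

end ESY.Alg4
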