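import Mathlib

/-!
# Pairs of subsets that are disjoint or meet in exactly one point

For a sum over the two sets with values in a small group, almost all disjoint pairs have the value
of a pair that meets in one point, and conversely. The proof uses the combinatorial lemma of
Kaibel and Weltge.
-/

namespace ESY.Alg4

open Finset

variable {Y : Type} [DecidableEq Y]

open Classical in
/-- the number of disjoint pairs of subsets of `S` with given properties -/
noncomputable def dn (S : Finset Y) (P Q : Finset Y → Prop) : ℕ :=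
  ∑ a ∈ S.powerset, ∑ b ∈ S.powerset, if Disjoint a b ∧ P a ∧ Q b then 1 else 0

theorem pt {d p p' q q' : Prop} [Decidable d] [Decidable p] [Decidable p'] [Decidable q]
    [Decidable q'] (h : d → ¬ (p' ∧ q')) :
    ((if d ∧ p ∧ q then 1 else 0) + (if d ∧ p ∧ q' then 1 else 0)) +
      (if d ∧ p' ∧ q then 1 else 0) ≤
    (if d ∧ (p ∨ p') ∧ q then 1 else 0) + (if d ∧ p ∧ (q ∨ q') then 1 else 0) := by
  by_cases hd : d <;> by_cases hp : p <;> by_cases hp' : p' <;> by_cases hq : q <;>
    by_cases hq' : q' <;> simp_all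

/-- **The lemma of Kaibel and Weltge.** -/
theorem kw (S : Finset Y) : ∀ (P Q : Finset Y → Prop),
    (∀ a b, a ⊆ S → b ⊆ S → P a → Q b → (a ∩ b).card ≠ 1) → dn S P Q ≤ 2 ^ S.card := by
  classical
  induction S using Finset.induction_on with
  | empty =>
    intro P Q _
    unfold dn
    rw [powerset_empty, sum_singleton, sum_singleton, card_empty, pow_zero]
    split_ifs <;> simp
  | insert x S hx ih =>
    intro P Q h
    have h1 := ih (fun a => P a ∨ P (insert x a)) Q (by
      intro a b ha hb hP hQ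
      rcases hP with hP | hP
      · exact h a b (ha.trans (subset_insert _ _)) (hb.trans (subset_insert _ _)) hP hQ
      · have h2 := h (insert x a) b (insert_subset_insert _ ha) (hb.trans (subset_insert _ _))
          hP hQ
        rwa [insert_inter_of_notMem (fun hxb => hx (hb hxb))] at h2)
    have h2 := ih P (fun b => Q b ∨ Q (insert x b)) (by
      intro a b ha hb hP hQ
      rcases hQ with hQ | hQ
      · exact h a b (ha.trans (subset_insert _ _)) (hb.trans (subset_insert _ _)) hP hQ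
      · have h2 := h a (insert x b) (ha.trans (subset_insert _ _)) (insert_subset_insert _ hb)
          hP hQ
        rwa [inter_insert_of_notMem (fun hxa => hx (ha hxa))] at h2)
    have h3 : dn (insert x S) P Q ≤ dn S (fun a => P a ∨ P (insert x a)) Q +
        dn S P (fun b => Q b ∨ Q (insert x b)) := by
      unfold dn
      rw [sum_powerset_insert hx]
      simp_rw [sum_powerset_insert hx]
      rw [← sum_add_distrib, ← sum_add_distrib]
      refine sum_le_sum fun a ha => ?_
      rw [← sum_add_distrib, ← sum_add_distrib, ← sum_add_distrib, ← sum_add_distrib]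
      refine sum_le_sum fun b hb => ?_
      have hxa : x ∉ a := fun h => hx (mem_powerset.1 ha h)
      have hxb : x ∉ b := fun h => hx (mem_powerset.1 hb h)
      have e1 : Disjoint a (insert x b) ↔ Disjoint a b := by
        rw [disjoint_insert_right]
        exact ⟨fun h => h.2, fun h => ⟨hxa, h⟩⟩
      have e2 : Disjoint (insert x a) b ↔ Disjoint a b := by
        rw [disjoint_insert_left]
        exact ⟨fun h => h.2, fun h => ⟨hxb, h⟩⟩
      have e3 : ¬ Disjoint (insert x a) (insert x b) := fun h =>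
        disjoint_left.1 h (mem_insert_self x a) (mem_insert_self x b)
      rw [if_neg (fun h' => e3 h'.1 : ¬ (Disjoint (insert x a) (insert x b) ∧
        P (insert x a) ∧ Q (insert x b))), add_zero]
      simp only [e1, e2]
      refine le_trans (pt (d := Disjoint a b) (p := P a) (p' := P (insert x a)) (q := Q b)
        (q' := Q (insert x b)) fun hd hPQ => ?_) (le_of_eq (by congr))
      refine h _ _ (insert_subset_insert _ (mem_powerset.1 ha))
        (insert_subset_insert _ (mem_powerset.1 hb)) hPQ.1 hPQ.2 ?_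
      rw [← insert_inter_distrib, disjoint_iff_inter_eq_empty.1 hd]
      rfl
    rw [card_insert_of_notMem hx, pow_succ]
    omega

/-! ### configurations -/

/-- disjoint pairs -/
def O0 (S : Finset Y) : Finset (Finset Y × Finset Y) :=
  (S.powerset ×ˢ S.powerset).filter fun c => Disjoint c.1 c.2

/-- pairs that meet in exactly one point -/
def O1 (S : Finset Y) : Finset (Finset Y × Finset Y) :=
  (S.powerset ×ˢ S.powerset).filter fun c => (c.1 ∩ c.2).card = 1

theorem mem_O0 {S : Finset Y} {c : Finset Y × Finset Y} :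
    c ∈ O0 S ↔ (c.1 ⊆ S ∧ c.2 ⊆ S) ∧ Disjoint c.1 c.2 := by
  rw [O0, mem_filter, mem_product, mem_powerset, mem_powerset]

theorem mem_O1 {S : Finset Y} {c : Finset Y × Finset Y} :
    c ∈ O1 S ↔ (c.1 ⊆ S ∧ c.2 ⊆ S) ∧ (c.1 ∩ c.2).card = 1 := by
  rw [O1, mem_filter, mem_product, mem_powerset, mem_powerset]

theorem dn_eq (S : Finset Y) (P Q : Finset Y → Prop) [DecidablePred P] [DecidablePred Q] :
    dn S P Q = ((O0 S).filter fun c => P c.1 ∧ Q c.2).card := by
  classical
  rw [O0, filter_filter, card_filter, sum_product]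
  unfold dn
  refine sum_congr rfl fun a _ => sum_congr rfl fun b _ => ?_
  congr

/-- a sum over the disjoint pairs -/
theorem sum_O0 (S : Finset Y) (f : Finset Y → Finset Y → ℕ) :
    ∑ c ∈ O0 S, f c.1 c.2 = ∑ a ∈ S.powerset, ∑ b ∈ S.powerset, if Disjoint a b then f a b else 0 := by
  rw [O0, sum_filter, sum_product]

theorem sum_O0_insert {x : Y} {S : Finset Y} (hx : x ∉ S) (f : Finset Y → Finset Y → ℕ) :
    ∑ c ∈ O0 (insert x S), f c.1 c.2 =
      ∑ c ∈ O0 S, (f c.1 c.2 + f c.1 (insert x c.2) + f (insert x c.1) c.2) := by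
  rw [sum_O0, sum_O0 S fun a b => f a b + f a (insert x b) + f (insert x a) b,
    sum_powerset_insert hx]
  simp_rw [sum_powerset_insert hx]
  rw [← sum_add_distrib]
  refine sum_congr rfl fun a ha => ?_
  rw [← sum_add_distrib, ← sum_add_distrib, ← sum_add_distrib]
  refine sum_congr rfl fun b hb => ?_
  have hxa : x ∉ a := fun h => hx (mem_powerset.1 ha h)
  have hxb : x ∉ b := fun h => hx (mem_powerset.1 hb h)
  have e1 : Disjoint a (insert x b) ↔ Disjoint a b := by
    rw [disjoint_insert_right]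
    exact ⟨fun h => h.2, fun h => ⟨hxa, h⟩⟩
  have e2 : Disjoint (insert x a) b ↔ Disjoint a b := by
    rw [disjoint_insert_left]
    exact ⟨fun h => h.2, fun h => ⟨hxb, h⟩⟩
  have e3 : ¬ Disjoint (insert x a) (insert x b) := fun h =>
    disjoint_left.1 h (mem_insert_self x a) (mem_insert_self x b)
  rw [if_neg e3, add_zero]
  simp only [e1, e2]
  by_cases h : Disjoint a b <;> simp [h]

/-- the disjoint pairs that cover `T` -/
theorem cover_card (S : Finset Y) : ∀ T ⊆ S,
    3 ^ T.card * ((O0 S).filter fun c => T ⊆ c.1 ∪ c.2).card = 2 ^ T.card * 3 ^ S.card := by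
  classical
  induction S using Finset.induction_on with
  | empty =>
    intro T hT
    rw [subset_empty.1 hT]
    simp [O0, filter_singleton]
  | insert x S hx ih =>
    intro T hT
    rw [card_filter, sum_O0_insert hx fun a b => if T ⊆ a ∪ b then 1 else 0,
      card_insert_of_notMem hx]
    by_cases hxT : x ∈ T
    · have hT' : T.erase x ⊆ S := by
        intro y hy
        rw [mem_erase] at hy
        exact (mem_insert.1 (hT hy.2)).resolve_left hy.1
      have h1 := ih (T.erase x) hT'
      rw [card_filter] at h1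
      have h2 : ∀ c ∈ O0 S, ((if T ⊆ c.1 ∪ c.2 then 1 else 0) +
          (if T ⊆ c.1 ∪ insert x c.2 then 1 else 0) + if T ⊆ insert x c.1 ∪ c.2 then 1 else 0) =
          2 * if T.erase x ⊆ c.1 ∪ c.2 then 1 else 0 := by
        intro c hc
        obtain ⟨⟨h3, h4⟩, -⟩ := mem_O0.1 hc
        have e1 : ¬ T ⊆ c.1 ∪ c.2 := fun h => hx (union_subset h3 h4 (h hxT))
        have e2 : T ⊆ c.1 ∪ insert x c.2 ↔ T.erase x ⊆ c.1 ∪ c.2 := by
          rw [union_insert, subset_insert_iff]
        have e3 : T ⊆ insert x c.1 ∪ c.2 ↔ T.erase x ⊆ c.1 ∪ c.2 := by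
          rw [insert_union, subset_insert_iff]
        rw [if_neg e1]
        simp only [e2, e3]
        ring
      rw [sum_congr rfl h2, ← mul_sum]
      have h5 := card_erase_add_one hxT
      rw [← h5, pow_succ, pow_succ, pow_succ]
      linear_combination (3 * 2 : ℕ) * h1
    · have hT' : T ⊆ S := by
        intro y hy
        refine (mem_insert.1 (hT hy)).resolve_left ?_
        rintro rfl
        exact hxT hy
      have h1 := ih T hT'
      rw [card_filter] at h1
      have h2 : ∀ c ∈ O0 S, ((if T ⊆ c.1 ∪ c.2 then 1 else 0) +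
          (if T ⊆ c.1 ∪ insert x c.2 then 1 else 0) + if T ⊆ insert x c.1 ∪ c.2 then 1 else 0) =
          3 * if T ⊆ c.1 ∪ c.2 then 1 else 0 := by
        intro c hc
        have e2 : T ⊆ c.1 ∪ insert x c.2 ↔ T ⊆ c.1 ∪ c.2 := by
          rw [union_insert, subset_insert_iff, erase_eq_of_notMem hxT]
        have e3 : T ⊆ insert x c.1 ∪ c.2 ↔ T ⊆ c.1 ∪ c.2 := by
          rw [insert_union, subset_insert_iff, erase_eq_of_notMem hxT]
        simp only [e2, e3]
        ring
      rw [sum_congr rfl h2, ← mul_sum, pow_succ]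
      linear_combination (3 : ℕ) * h1

theorem card_O0 (S : Finset Y) : (O0 S).card = 3 ^ S.card := by
  have h := cover_card S ∅ (empty_subset _)
  rw [card_empty, pow_zero, one_mul, pow_zero, one_mul] at h
  rw [← h, filter_true_of_mem]
  exact fun c _ => empty_subset _

theorem card_O1 (S : Finset Y) : 3 * (O1 S).card = S.card * 3 ^ S.card := by
  classical
  induction S using Finset.induction_on with
  | empty => simp [O1]
  | insert x S hx ih =>
    have h1 : (O1 (insert x S)).card = 3 * (O1 S).card + (O0 S).card := by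
      have e : ∀ S : Finset Y, (O1 S).card = ∑ a ∈ S.powerset, ∑ b ∈ S.powerset,
          if (a ∩ b).card = 1 then 1 else 0 := by
        intro S
        rw [O1, card_filter, sum_product]
      have e' : ∀ S : Finset Y, (O0 S).card = ∑ a ∈ S.powerset, ∑ b ∈ S.powerset,
          if Disjoint a b then 1 else 0 := by
        intro S
        rw [O0, card_filter, sum_product]
      rw [e, e, e', sum_powerset_insert hx]
      simp_rw [sum_powerset_insert hx]
      rw [← sum_add_distrib, mul_sum, ← sum_add_distrib]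
      refine sum_congr rfl fun a ha => ?_
      rw [← sum_add_distrib, ← sum_add_distrib, ← sum_add_distrib, mul_sum, ← sum_add_distrib]
      refine sum_congr rfl fun b hb => ?_
      have hxa : x ∉ a := fun h => hx (mem_powerset.1 ha h)
      have hxb : x ∉ b := fun h => hx (mem_powerset.1 hb h)
      have e1 : a ∩ insert x b = a ∩ b := inter_insert_of_notMem hxa
      have e2 : insert x a ∩ b = a ∩ b := insert_inter_of_notMem hxb
      have e3 : insert x a ∩ insert x b = insert x (a ∩ b) := (insert_inter_distrib _ _ _).symm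
      have e4 : (insert x (a ∩ b)).card = (a ∩ b).card + 1 :=
        card_insert_of_notMem fun h => hxa (mem_inter.1 h).1
      rw [e1, e2, e3, e4]
      have e5 : (a ∩ b).card + 1 = 1 ↔ Disjoint a b := by
        rw [disjoint_iff_inter_eq_empty, ← card_eq_zero]
        omega
      simp only [e5]
      ring
    rw [h1, card_O0, card_insert_of_notMem hx, pow_succ]
    linear_combination (3 : ℕ) * ih

/-! ### sums over a configuration -/

variable {Γ : Type} [AddCommGroup Γ] [DecidableEq Γ]

/-- the value of a configuration -/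
def kp (α β : Y → Γ) (c : Finset Y × Finset Y) : Γ := ∑ y ∈ c.1, α y + ∑ y ∈ c.2, β y

/-- disjoint pairs whose value is not the value of a pair that meets in one point -/
def B0 (S : Finset Y) (α β : Y → Γ) : Finset (Finset Y × Finset Y) :=
  (O0 S).filter fun c => ∀ f ∈ O1 S, kp α β f ≠ kp α β c

/-- pairs that meet in one point whose value is not the value of a disjoint pair -/
def B1 (S : Finset Y) (α β : Y → Γ) : Finset (Finset Y × Finset Y) :=
  (O1 S).filter fun c => ∀ f ∈ O0 S, kp α β f ≠ kp α β c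

theorem card_B0 [Fintype Γ] (S : Finset Y) (α β : Y → Γ) :
    (B0 S α β).card ≤ Fintype.card Γ ^ 2 * 2 ^ S.card := by
  classical
  have h1 : (B0 S α β).card = ∑ g : Γ × Γ, ((B0 S α β).filter fun c =>
      (∑ y ∈ c.1, α y, ∑ y ∈ c.2, β y) = g).card :=
    card_eq_sum_card_fiberwise fun c _ => mem_univ _
  rw [h1]
  have h2 : ∀ g : Γ × Γ, ((B0 S α β).filter fun c =>
      (∑ y ∈ c.1, α y, ∑ y ∈ c.2, β y) = g).card ≤ 2 ^ S.card := by
    rintro ⟨g, h⟩
    have h3 := kw S (fun a => ∑ y ∈ a, α y = g ∧ ∀ f ∈ O1 S, kp α β f ≠ g + h)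
      (fun b => ∑ y ∈ b, β y = h) (by
        rintro a b ha hb ⟨h3, h4⟩ h5 h6
        refine h4 (a, b) (mem_O1.2 ⟨⟨ha, hb⟩, h6⟩) ?_
        rw [kp, h3, h5])
    rw [dn_eq] at h3
    refine le_trans (card_le_card ?_) h3
    intro c hc
    rw [mem_filter, B0, mem_filter] at hc
    obtain ⟨⟨h5, h6⟩, h7⟩ := hc
    obtain ⟨h8, h9⟩ := Prod.mk.inj h7
    rw [mem_filter]
    refine ⟨h5, ⟨h8, fun f hf => ?_⟩, h9⟩
    have h10 := h6 f hf
    rwa [kp, kp, h8, h9] at h10
  refine (sum_le_sum fun g _ => h2 g).trans ?_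
  rw [sum_const, smul_eq_mul, card_univ, Fintype.card_prod, sq]

/-- the names that cannot be added -/
def Bl (S : Finset Y) (α β : Y → Γ) (g : Γ) : Finset Y :=
  S.filter fun j => ∀ f ∈ O0 S, kp α β f ≠ g + β j

theorem fiber_cover (S : Finset Y) (α β : Y → Γ) (g : Γ) {c : Finset Y × Finset Y}
    (hc : c ∈ O0 S) (hg : kp α β c = g) : Bl S α β g ⊆ c.1 ∪ c.2 := by
  intro j hj
  obtain ⟨h1, h2⟩ := mem_filter.1 hj
  by_contra hcon
  rw [mem_union, not_or] at hcon
  obtain ⟨⟨h3, h4⟩, h5⟩ := mem_O0.1 hc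
  refine h2 (c.1, insert j c.2) (mem_O0.2 ⟨⟨h3, insert_subset h1 h4⟩,
    disjoint_insert_right.2 ⟨hcon.1, h5⟩⟩) ?_
  rw [← hg, kp, kp, sum_insert hcon.2]
  abel

theorem card_B1_le (S : Finset Y) (α β : Y → Γ) :
    (B1 S α β).card ≤ ∑ c ∈ O0 S, (Bl S α β (kp α β c)).card := by
  classical
  rw [← card_sigma]
  rcases (B1 S α β).eq_empty_or_nonempty with h0 | ⟨f₀, hf₀⟩
  · rw [h0, card_empty]
    exact Nat.zero_le _
  have hex : ∀ f : Finset Y × Finset Y, ∃ j, f ∈ B1 S α β → f.1 ∩ f.2 = {j} := by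
    intro f
    by_cases hf : f ∈ B1 S α β
    · obtain ⟨j, hj⟩ := card_eq_one.1 (mem_O1.1 (mem_filter.1 hf).1).2
      exact ⟨j, fun _ => hj⟩
    · obtain ⟨j, hj⟩ := card_eq_one.1 (mem_O1.1 (mem_filter.1 hf₀).1).2
      exact ⟨j, fun h => absurd h hf⟩
  choose j hj using hex
  refine card_le_card_of_injOn (fun f => ⟨(f.1, f.2.erase (j f)), j f⟩) ?_ ?_
  · intro f hf
    have h0 := hj f hf
    obtain ⟨h1, h2⟩ := mem_filter.1 hf
    obtain ⟨⟨h3, h4⟩, -⟩ := mem_O1.1 h1
    have h5 : j f ∈ f.1 ∩ f.2 := by rw [h0]; exact mem_singleton_self _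
    obtain ⟨h6, h7⟩ := mem_inter.1 h5
    rw [mem_coe, mem_sigma]
    refine ⟨mem_O0.2 ⟨⟨h3, (erase_subset _ _).trans h4⟩, ?_⟩, ?_⟩
    · rw [disjoint_left]
      intro y hy hy'
      obtain ⟨h8, h9⟩ := mem_erase.1 hy'
      have h10 : y ∈ f.1 ∩ f.2 := mem_inter.2 ⟨hy, h9⟩
      rw [h0, mem_singleton] at h10
      exact h8 h10
    · refine mem_filter.2 ⟨h3 h6, fun c hc => ?_⟩
      have h8 := h2 c hc
      have h9 : kp α β (f.1, f.2.erase (j f)) + β (j f) = kp α β f := by
        rw [kp, kp, add_assoc, sum_erase_add _ _ h7]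
      simp only
      rwa [h9]
  · intro f hf f' hf' h
    simp only [Sigma.mk.injEq, Prod.mk.injEq, heq_eq_eq] at h
    obtain ⟨⟨h1, h2⟩, h3⟩ := h
    have h4 : j f ∈ f.1 ∩ f.2 := by rw [hj f hf]; exact mem_singleton_self _
    have h4' : j f' ∈ f'.1 ∩ f'.2 := by rw [hj f' hf']; exact mem_singleton_self _
    refine Prod.ext h1 ?_
    rw [← insert_erase (mem_inter.1 h4).2, h2, h3, insert_erase (mem_inter.1 h4').2]

theorem card_fiber_le (S : Finset Y) (α β : Y → Γ) (g : Γ) {r : ℕ}
    (hr : r < (Bl S α β g).card) :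
    3 ^ r * ((O0 S).filter fun c => kp α β c = g).card ≤ 2 ^ r * 3 ^ S.card := by
  have h1 := cover_card S (Bl S α β g) (filter_subset _ _)
  have h2 : ((O0 S).filter fun c => kp α β c = g).card ≤
      ((O0 S).filter fun c => Bl S α β g ⊆ c.1 ∪ c.2).card := by
    refine card_le_card fun c hc => ?_
    obtain ⟨h3, h4⟩ := mem_filter.1 hc
    exact mem_filter.2 ⟨h3, fiber_cover S α β g h3 h4⟩
  obtain ⟨d, hd⟩ := Nat.exists_eq_add_of_lt hr
  set F := ((O0 S).filter fun c => kp α β c = g).card
  set F' := ((O0 S).filter fun c => Bl S α β g ⊆ c.1 ∪ c.2).card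
  rw [hd] at h1
  have h3 : 3 ^ (r + d + 1) * F ≤ 2 ^ (r + d + 1) * 3 ^ S.card :=
    (Nat.mul_le_mul_left _ h2).trans h1.le
  have h4 : 2 ^ (d + 1) ≤ 3 ^ (d + 1) := Nat.pow_le_pow_left (by norm_num) _
  have h5 : 3 ^ (d + 1) * (3 ^ r * F) ≤ 3 ^ (d + 1) * (2 ^ r * 3 ^ S.card) := by
    calc 3 ^ (d + 1) * (3 ^ r * F) = 3 ^ (r + d + 1) * F := by ring
      _ ≤ 2 ^ (r + d + 1) * 3 ^ S.card := h3
      _ = 2 ^ (d + 1) * (2 ^ r * 3 ^ S.card) := by ring
      _ ≤ 3 ^ (d + 1) * (2 ^ r * 3 ^ S.card) := Nat.mul_le_mul_right _ h4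
  exact Nat.le_of_mul_le_mul_left h5 (by positivity)

theorem card_B1 [Fintype Γ] (S : Finset Y) (α β : Y → Γ) {W N : ℕ} (hΓ : Fintype.card Γ ≤ 2 ^ W)
    (hS : S.card ≤ 2 ^ N) : (B1 S α β).card ≤ (2 * (W + N) + 1) * 3 ^ S.card := by
  refine (card_B1_le S α β).trans ?_
  set r := 2 * (W + N) with hr
  have h1 : ∑ c ∈ O0 S, (Bl S α β (kp α β c)).card =
      ∑ g : Γ, ((O0 S).filter fun c => kp α β c = g).card * (Bl S α β g).card := by
    rw [← sum_fiberwise_of_maps_to (s := O0 S) (t := univ) (g := kp α β)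
      (fun c _ => mem_univ _)]
    refine sum_congr rfl fun g _ => ?_
    rw [← smul_eq_mul, ← sum_const]
    exact sum_congr rfl fun c hc => by rw [(mem_filter.1 hc).2]
  have h2 : ∑ g : Γ, ((O0 S).filter fun c => kp α β c = g).card = 3 ^ S.card := by
    rw [← card_O0, card_eq_sum_card_fiberwise (s := O0 S) (t := univ) (f := kp α β)
      (fun c _ => mem_univ _)]
  have h3 : ∀ g : Γ, 3 ^ r * (((O0 S).filter fun c => kp α β c = g).card * (Bl S α β g).card) ≤
      3 ^ r * (r * ((O0 S).filter fun c => kp α β c = g).card) +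
        S.card * (2 ^ r * 3 ^ S.card) := by
    intro g
    by_cases hg : (Bl S α β g).card ≤ r
    · refine le_trans (Nat.mul_le_mul_left _ ?_) (Nat.le_add_right _ _)
      rw [mul_comm]
      exact Nat.mul_le_mul_right _ hg
    · have h4 := card_fiber_le S α β g (not_le.1 hg)
      have h5 : (Bl S α β g).card ≤ S.card := card_le_card (filter_subset _ _)
      refine le_trans ?_ (Nat.le_add_left _ _)
      rw [← mul_assoc, mul_comm]
      exact Nat.mul_le_mul h5 h4
  have h4 : 3 ^ r * ∑ c ∈ O0 S, (Bl S α β (kp α β c)).card ≤ 3 ^ r * ((r + 1) * 3 ^ S.card) := by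
    rw [h1, mul_sum]
    refine (sum_le_sum fun g _ => h3 g).trans ?_
    rw [sum_add_distrib, ← mul_sum, ← mul_sum, h2, sum_const, smul_eq_mul, card_univ]
    have h5 : Fintype.card Γ * (S.card * (2 ^ r * 3 ^ S.card)) ≤ 3 ^ r * 3 ^ S.card := by
      have h6 : Fintype.card Γ * S.card ≤ 2 ^ (W + N) := by
        rw [pow_add]
        exact Nat.mul_le_mul hΓ hS
      have h7 : 2 ^ (W + N) * 2 ^ r ≤ 3 ^ r := by
        rw [hr, pow_mul, pow_mul, ← mul_pow]
        exact Nat.pow_le_pow_left (by norm_num) _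
      calc Fintype.card Γ * (S.card * (2 ^ r * 3 ^ S.card)) =
            Fintype.card Γ * S.card * 2 ^ r * 3 ^ S.card := by ring
        _ ≤ 2 ^ (W + N) * 2 ^ r * 3 ^ S.card :=
          Nat.mul_le_mul_right _ (Nat.mul_le_mul_right _ h6)
        _ ≤ 3 ^ r * 3 ^ S.card := Nat.mul_le_mul_right _ h7
    calc 3 ^ r * (r * 3 ^ S.card) + Fintype.card Γ * (S.card * (2 ^ r * 3 ^ S.card)) ≤
          3 ^ r * (r * 3 ^ S.card) + 3 ^ r * 3 ^ S.card := Nat.add_le_add_left h5 _
      _ = 3 ^ r * ((r + 1) * 3 ^ S.card) := by ring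
  exact Nat.le_of_mul_le_mul_left h4 (by positivity)

end ESY.Alg4
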