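import Pool.Agent.Lib.MP_80aaf5_lc.Alg3.Query
import Pool.Agent.Lib.MP_80aaf5_lc.Alg4.Avg

/-!
# The values of the algebraic extension as sums
-/

namespace ESY.Alg4

open ESY Polynomial
open ESY.Alg3 (Ls mem_Ls card_Ls el al Qy ql)

theorem ls_zero : Ls 0 = {[]} := by
  ext s
  rw [mem_Ls, Finset.mem_singleton, List.length_eq_zero_iff]

theorem sum_ls_succ {G : Type} [AddCommMonoid G] (n : ℕ) (f : List Bool → G) :
    ∑ s ∈ Ls (n + 1), f s = ∑ s ∈ Ls n, f (false :: s) + ∑ s ∈ Ls n, f (true :: s) := by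
  classical
  have h1 : ∀ b : Bool, Function.Injective (fun s : List Bool => b :: s) := fun b s s' h =>
    (List.cons.inj h).2
  have h : Ls (n + 1) = (Ls n).map ⟨_, h1 false⟩ ∪ (Ls n).map ⟨_, h1 true⟩ := by
    ext s
    rw [mem_Ls, Finset.mem_union, Finset.mem_map, Finset.mem_map]
    constructor
    · intro hs
      rcases s with _ | ⟨b, s⟩
      · exact absurd hs (by simp)
      · have hs' : s.length = n := Nat.succ.inj hs
        cases b
        · exact Or.inl ⟨s, mem_Ls.2 hs', rfl⟩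
        · exact Or.inr ⟨s, mem_Ls.2 hs', rfl⟩
    · rintro (⟨s, hs, rfl⟩ | ⟨s, hs, rfl⟩)
      · exact congrArg Nat.succ (mem_Ls.1 hs)
      · exact congrArg Nat.succ (mem_Ls.1 hs)
  rw [h, Finset.sum_union, Finset.sum_map, Finset.sum_map]
  · rfl
  · rw [Finset.disjoint_left]
    intro s hs hs'
    obtain ⟨t, -, rfl⟩ := Finset.mem_map.1 hs
    obtain ⟨t', -, e⟩ := Finset.mem_map.1 hs'
    exact absurd (List.cons.inj e).1 (by decide)

/-- the multilinear polynomials that are `1` at one string -/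
def chi {R : Type} [CommRing R] : List R → List Bool → R
  | [], _ => 1
  | _ :: _, [] => 0
  | r :: l, false :: s => (1 - r) * chi l s
  | r :: l, true :: s => r * chi l s

theorem ml_eq {R : Type} [CommRing R] : ∀ (l : List R) (A : Oracle),
    ml A l = ∑ s ∈ Ls l.length, if A s = true then chi l s else 0
  | [], A => by
    rw [List.length_nil, ls_zero, Finset.sum_singleton, ml, chi]
    cases A [] <;> simp
  | r :: l, A => by
    rw [List.length_cons, sum_ls_succ, ml, ml_eq l fun s => A (false :: s),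
      ml_eq l fun s => A (true :: s), Finset.mul_sum, Finset.mul_sum]
    congr 1
    · refine Finset.sum_congr rfl fun s _ => ?_
      rw [mul_ite, mul_zero]
      rfl
    · refine Finset.sum_congr rfl fun s _ => ?_
      rw [mul_ite, mul_zero]
      rfl

theorem ext_rep (r : List Bool) : ∃ (n : ℕ) (cf : List Bool → ZMod (n + 1))
    (d : ZMod (n + 1) → Bool), n + 1 ≤ 2 ^ r.length ∧
      ∀ A, ext A r = d (∑ s ∈ Ls (el r), if A s = true then cf s else 0) := by
  have h0 := nums_lt r
  unfold ext el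
  generalize nums r = ns at h0 ⊢
  rcases ns with _ | ⟨q, _ | ⟨k, _ | ⟨l, _ | ⟨j, r⟩⟩⟩⟩
  · exact ⟨0, fun _ => 0, fun _ => false, Nat.one_le_two_pow, fun _ => rfl⟩
  · exact ⟨0, fun _ => 0, fun _ => false, Nat.one_le_two_pow, fun _ => rfl⟩
  · exact ⟨0, fun _ => 0, fun _ => false, Nat.one_le_two_pow, fun _ => rfl⟩
  · exact ⟨0, fun _ => 0, fun _ => false, Nat.one_le_two_pow, fun _ => rfl⟩
  · set pts : List (ZMod (q + 1))[X] := (List.range (r.length / k - 1)).map
      fun i => pol q ((r.drop (k * (i + 1))).take k) with hpts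
    have hlen : pts.length = r.length / k - 1 := by
      rw [hpts, List.length_map, List.length_range]
    refine ⟨q, fun s => (chi pts s %ₘ (X ^ k + pol q (r.take k))).coeff l,
      fun z => z.val.testBit j, h0 q (by simp), fun A => ?_⟩
    have h1 : ∀ p : (ZMod (q + 1))[X], (p %ₘ (X ^ k + pol q (r.take k))).coeff l =
        (lcoeff (ZMod (q + 1)) l ∘ₗ modByMonicHom (X ^ k + pol q (r.take k))) p := fun p => rfl
    have h2 : ((∑ s ∈ Ls pts.length, if A s = true then chi pts s else 0) %ₘ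
        (X ^ k + pol q (r.take k))).coeff l = ∑ s ∈ Ls pts.length, if A s = true then
          (chi pts s %ₘ (X ^ k + pol q (r.take k))).coeff l else 0 := by
      rw [h1, map_sum]
      refine Finset.sum_congr rfl fun s _ => ?_
      split_ifs
      · rfl
      · exact map_zero _
    simp only
    rw [← hpts, ml_eq, h2, hlen]

/-! ### queries -/

/-- the oracle `O` or the algebraic oracle over `O` -/
noncomputable def lw (i : Bool) (O : Oracle) : Oracle := bif i then alg O else O

/-- value of a query -/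
noncomputable def qv (p : Qy) (A : Oracle) : Bool := lw p.1 A p.2

/-- weight of a query -/
def wt (p : Qy) : ℕ := p.2.length + 1

theorem rep (p : Qy) : ∃ (n : ℕ) (cf : List Bool → ZMod (n + 1))
    (d : ZMod (n + 1) → Bool), n + 1 ≤ 2 ^ wt p ∧
      ∀ A, qv p A = d (∑ s ∈ Ls (ql p), if A s = true then cf s else 0) := by
  have key : ∀ s : List Bool, ∃ (cf : List Bool → ZMod (1 + 1))
      (d : ZMod (1 + 1) → Bool),
      ∀ A : Oracle, A s = d (∑ t ∈ Ls s.length, if A t = true then cf t else 0) := by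
    intro s
    refine ⟨fun t => if t = s then 1 else 0, fun z => decide (z = 1), fun A => ?_⟩
    have h1 : ∑ t ∈ Ls s.length, (if A t = true then (if t = s then (1 : ZMod (1 + 1)) else 0)
        else 0) = if A s = true then 1 else 0 := by
      rw [Finset.sum_eq_single s]
      · rw [if_pos rfl]
      · intro t _ ht
        rw [if_neg ht, ite_self]
      · intro h
        exact absurd (mem_Ls.2 rfl) h
    rw [h1]
    cases A s <;> rfl
  have h2 : ∀ s : List Bool, 1 + 1 ≤ 2 ^ (s.length + 1) := fun s => by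
    rw [pow_succ]
    have := Nat.one_le_two_pow (n := s.length)
    omega
  obtain ⟨i, s⟩ := p
  match i, s with
  | false, s =>
    obtain ⟨cf, d, h⟩ := key s
    exact ⟨1, cf, d, h2 s, h⟩
  | true, [] => exact ⟨0, fun _ => 0, fun _ => false, by simp [wt], fun _ => rfl⟩
  | true, false :: s =>
    obtain ⟨cf, d, h⟩ := key s
    exact ⟨1, cf, d, h2 (false :: s), h⟩
  | true, true :: s =>
    obtain ⟨n, cf, d, h1, h⟩ := ext_rep s
    refine ⟨n, cf, d, h1.trans (Nat.pow_le_pow_right (by norm_num) ?_), h⟩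
    simp only [wt, List.length_cons]
    omega

/-- modulus minus one -/
noncomputable def md (p : Qy) : ℕ := (rep p).choose

/-- coefficients -/
noncomputable def cf (p : Qy) : List Bool → ZMod (md p + 1) := (rep p).choose_spec.choose

/-- decoding -/
noncomputable def dc (p : Qy) : ZMod (md p + 1) → Bool :=
  (rep p).choose_spec.choose_spec.choose

theorem md_le (p : Qy) : md p + 1 ≤ 2 ^ wt p := (rep p).choose_spec.choose_spec.choose_spec.1

theorem qv_eq (p : Qy) (A : Oracle) :
    qv p A = dc p (∑ s ∈ Ls (ql p), if A s = true then cf p s else 0) :=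
  (rep p).choose_spec.choose_spec.choose_spec.2 A

theorem qv_congr {p : Qy} {A A' : Oracle}
    (h : ∀ t : List Bool, t.length = ql p → A t = A' t) : qv p A = qv p A' := by
  rw [qv_eq, qv_eq]
  congr 1
  exact Finset.sum_congr rfl fun s hs => by rw [h s (mem_Ls.1 hs)]

/-! ### the sum of the weights -/

/-- the queries of length less than `w` -/
def Pq (w : ℕ) : Finset Qy := (Finset.univ : Finset Bool) ×ˢ (Finset.range w).biUnion Ls

theorem mem_Pq {w : ℕ} {p : Qy} : p ∈ Pq w ↔ p.2.length < w := by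
  rw [Pq, Finset.mem_product, Finset.mem_biUnion]
  constructor
  · rintro ⟨-, n, hn, hp⟩
    rw [mem_Ls.1 hp]
    exact Finset.mem_range.1 hn
  · intro h
    exact ⟨Finset.mem_univ _, p.2.length, Finset.mem_range.2 h, mem_Ls.2 rfl⟩

theorem sum_Pq (w : ℕ) : ∑ p ∈ Pq w, (1 / 16 : ℝ) ^ wt p ≤ 1 / 7 := by
  have h0 : ∀ x : Bool, ∑ y ∈ (Finset.range w).biUnion Ls, (1 / 16 : ℝ) ^ wt (x, y) =
      ∑ y ∈ (Finset.range w).biUnion Ls, (1 / 16 : ℝ) ^ wt (false, y) := fun _ => rfl
  rw [Pq, Finset.sum_product, Finset.sum_congr rfl fun x _ => h0 x, Finset.sum_const,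
    Finset.card_univ, Fintype.card_bool, Finset.sum_biUnion]
  · have h5 : ∀ a ∈ Finset.range w, ∑ x ∈ Ls a, (1 / 16 : ℝ) ^ wt (false, x) =
        (1 / 8) ^ a * (1 / 16) := by
      intro a _
      have h6 : ∀ x ∈ Ls a, (1 / 16 : ℝ) ^ wt (false, x) = (1 / 16) ^ (a + 1) :=
        fun x hx => by rw [wt, mem_Ls.1 hx]
      rw [Finset.sum_congr rfl h6, Finset.sum_const, card_Ls, nsmul_eq_mul, pow_succ,
        ← mul_assoc]
      push_cast
      rw [← mul_pow]
      norm_num
    have h6 : ∑ i ∈ Finset.range w, ∑ x ∈ Ls i, (1 / 16 : ℝ) ^ wt (false, x) =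
        (∑ i ∈ Finset.range w, (1 / 8 : ℝ) ^ i) * (1 / 16) := by
      rw [Finset.sum_mul]
      exact Finset.sum_congr rfl h5
    have h7 : ∑ i ∈ Finset.range w, (1 / 8 : ℝ) ^ i ≤ 8 / 7 := by
      rw [geom_sum_eq (show (1 / 8 : ℝ) ≠ 1 by norm_num) w]
      have h8 : (0 : ℝ) < (1 / 8) ^ w := by positivity
      rw [div_le_iff_of_neg (by norm_num)]
      linarith
    rw [nsmul_eq_mul]
    refine le_trans (b := (2 : ℝ) * ((∑ i ∈ Finset.range w, (1 / 8 : ℝ) ^ i) * (1 / 16))) ?_ ?_
    · rw [← h6]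
      push_cast
      exact le_rfl
    · linarith
  · intro a _ b _ hab
    rw [Function.onFun, Finset.disjoint_left]
    intro x hx hx'
    exact hab ((mem_Ls.1 hx).symm.trans (mem_Ls.1 hx'))

theorem sub_Pq {Q : Finset Qy} {w : ℕ} (h : ∑ p ∈ Q, wt p ≤ w) : Q ⊆ Pq w := by
  intro p hp
  rw [mem_Pq]
  have h1 : wt p ≤ ∑ p ∈ Q, wt p := Finset.single_le_sum (fun _ _ => Nat.zero_le _) hp
  have h2 : p.2.length + 1 ≤ ∑ p ∈ Q, wt p := h1
  omega

end ESY.Alg4
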